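import Pool.Agent.W_MP_27356f_gt.LipPath
import Pool.Agent.W_MP_27356f_gt.Normal
import Pool.Agent.W_MP_27356f_gt.Perturb

namespace Pool.Agent.Results.MP_27356f_gt.Abelianization

open Pool.Agent.W_MP_27356f_gt

/-- Piecewise linear maps: continuous, and everywhere equal to one of finitely many affine maps. -/
def IsPLMap {n : ℕ} (f : (Fin n → ℝ) → (Fin n → ℝ)) : Prop :=
  Continuous f ∧ ∃ s : Set ((Fin n → ℝ) →ᵃ[ℝ] (Fin n → ℝ)), s.Finite ∧ ∀ x, ∃ L ∈ s, f x = L x

/-- the map is the identity off a compact set -/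
def IdOffCompact {n : ℕ} (f : (Fin n → ℝ) → (Fin n → ℝ)) : Prop :=
  ∃ K : Set (Fin n → ℝ), IsCompact K ∧ ∀ x, x ∉ K → f x = x

/-- The group `G` of piecewise linear homeomorphisms of `ℝⁿ` which are the identity off a compact
set. -/
structure PLGroup (n : ℕ) where
  /-- the homeomorphism -/
  hom : (Fin n → ℝ) ≃ₜ (Fin n → ℝ)
  /-- it is piecewise linear -/
  pl : IsPLMap hom
  /-- it is the identity off a compact set -/
  cpt : IdOffCompact hom

theorem PLGroup.mem {n : ℕ} (f : PLGroup n) : f.hom ∈ PLc (Fin n → ℝ) := ⟨f.pl, f.cpt⟩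

theorem ext_hom {n : ℕ} {f g : PLGroup n} (h : f.hom = g.hom) : f = g := by
  cases f; cases g; cases h; rfl

theorem pl_trans {n : ℕ} (f g : PLGroup n) : IsPLMap (g.hom.trans f.hom) :=
  ((PLc (Fin n → ℝ)).mul_mem f.mem g.mem).1

theorem cpt_trans {n : ℕ} (f g : PLGroup n) : IdOffCompact (g.hom.trans f.hom) :=
  ((PLc (Fin n → ℝ)).mul_mem f.mem g.mem).2

theorem pl_refl (n : ℕ) : IsPLMap (Homeomorph.refl (Fin n → ℝ)) := (PLc (Fin n → ℝ)).one_mem.1

theorem cpt_refl (n : ℕ) : IdOffCompact (Homeomorph.refl (Fin n → ℝ)) :=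
  (PLc (Fin n → ℝ)).one_mem.2

theorem pl_symm {n : ℕ} (f : PLGroup n) : IsPLMap f.hom.symm :=
  ((PLc (Fin n → ℝ)).inv_mem f.mem).1

theorem cpt_symm {n : ℕ} (f : PLGroup n) : IdOffCompact f.hom.symm :=
  ((PLc (Fin n → ℝ)).inv_mem f.mem).2

/-- composition -/
def comp {n : ℕ} (f g : PLGroup n) : PLGroup n := ⟨g.hom.trans f.hom, pl_trans f g, cpt_trans f g⟩

/-- the identity -/
def refl (n : ℕ) : PLGroup n := ⟨Homeomorph.refl _, pl_refl n, cpt_refl n⟩

/-- the inverse -/
def symm {n : ℕ} (f : PLGroup n) : PLGroup n := ⟨f.hom.symm, pl_symm f, cpt_symm f⟩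

instance (n : ℕ) : Mul (PLGroup n) := ⟨comp⟩
instance (n : ℕ) : One (PLGroup n) := ⟨refl n⟩
instance (n : ℕ) : Inv (PLGroup n) := ⟨symm⟩

theorem hom_mul {n : ℕ} (f g : PLGroup n) : (f * g).hom = f.hom * g.hom := rfl
theorem hom_one {n : ℕ} : (1 : PLGroup n).hom = 1 := rfl
theorem hom_inv {n : ℕ} (f : PLGroup n) : (f⁻¹).hom = f.hom⁻¹ := rfl

theorem mul_assoc' {n : ℕ} (f g h : PLGroup n) : f * g * h = f * (g * h) := ext_hom rfl
theorem one_mul' {n : ℕ} (f : PLGroup n) : 1 * f = f := ext_hom rfl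
theorem inv_mul' {n : ℕ} (f : PLGroup n) : f⁻¹ * f = 1 :=
  ext_hom (by rw [hom_mul, hom_inv, hom_one, inv_mul_cancel])

instance (n : ℕ) : Group (PLGroup n) := Group.ofLeftAxioms mul_assoc' one_mul' inv_mul'

/-- All displacements are parallel to a fixed vector. -/
def LinePreserving {n : ℕ} (f : PLGroup n) : Prop :=
  ∃ v : Fin n → ℝ, ∀ x, ∃ c : ℝ, f.hom x = x + c • v

/-- A path which is continuous for the Lipschitz seminorm of the differences. -/
def LipPath {n : ℕ} (F : ℝ → PLGroup n) : Prop :=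
  ∀ t : ℝ, 0 ≤ t → t ≤ 1 → ∀ ε : ℝ, 0 < ε → ∃ δ : ℝ, 0 < δ ∧ ∀ s : ℝ, 0 ≤ s → s ≤ 1 →
    |s - t| < δ → ∀ x y,
      dist ((F s).hom x - (F t).hom x) ((F s).hom y - (F t).hom y) ≤ ε * dist x y

/-- comparison with the subgroup `PLc` -/
def toPLc (n : ℕ) : PLGroup n ≃* PLc (Fin n → ℝ) where
  toFun f := ⟨f.hom, f.mem⟩
  invFun f := ⟨f.1, f.2.1, f.2.2⟩
  left_inv _ := rfl
  right_inv _ := rfl
  map_mul' _ _ := rfl

theorem mem_iff {n : ℕ} (f : PLGroup n) :
    f ∈ commutator (PLGroup n) ↔ f.hom ∈ ⁅PLc (Fin n → ℝ), PLc (Fin n → ℝ)⁆ := by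
  have h : (commutator (PLGroup n)).map ((PLc (Fin n → ℝ)).subtype.comp (toPLc n).toMonoidHom) =
      ⁅PLc (Fin n → ℝ), PLc (Fin n → ℝ)⁆ := by
    rw [commutator_def, Subgroup.map_commutator, ← MonoidHom.range_eq_map]
    have : ((PLc (Fin n → ℝ)).subtype.comp (toPLc n).toMonoidHom).range = PLc (Fin n → ℝ) := by
      ext x
      constructor
      · rintro ⟨f, rfl⟩
        exact f.mem
      · intro hx
        exact ⟨⟨x, hx.1, hx.2⟩, rfl⟩
    rw [this]
  rw [← h]
  constructor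
  · intro hf
    exact ⟨f, hf, rfl⟩
  · rintro ⟨g, hg, hgf⟩
    have : g = f := ext_hom hgf
    rw [← this]
    exact hg

/-- The abelianization of the group `G = PLGroup n` of compactly supported piecewise linear
homeomorphisms of `ℝⁿ`.
(1) Every element of `G` with all displacements parallel to a fixed vector is in `[G, G]`.
(2) If `F t`, `0 ≤ t ≤ 1`, is a path in `G` which is continuous for the Lipschitz seminorm of the
differences, then `F 1` and `F 0` have the same class modulo `[G, G]`.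
(3) `[G, G]` is the normal closure in `G` of the elements in (1).
(4) The abelianization of `G` is countable. -/
theorem result (n : ℕ) :
    (∀ f : PLGroup n, LinePreserving f → f ∈ commutator (PLGroup n)) ∧
    (∀ F : ℝ → PLGroup n, LipPath F → F 1 * (F 0)⁻¹ ∈ commutator (PLGroup n)) ∧
    commutator (PLGroup n) = Subgroup.normalClosure {f : PLGroup n | LinePreserving f} ∧
    Countable (Abelianization (PLGroup n)) := by
  refine ⟨fun f h => (mem_iff _).mpr (linePres_mem f.mem h), fun F hF => ?_, ?_, ?_⟩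
  · refine (mem_iff _).mpr (lipPath_mem (fun t => (F t).hom) (fun t _ _ => (F t).mem) ?_)
    intro t h0 h1 ε hε
    obtain ⟨δ, hδ, h⟩ := hF t h0 h1 ε hε
    refine ⟨δ, hδ, fun s hs0 hs1 hst x y => ?_⟩
    have := h s hs0 hs1 hst x y
    rwa [dist_eq_norm, dist_eq_norm] at this
  · apply le_antisymm
    · intro f hf
      have hf := (mem_iff f).mp hf
      rw [commutator_eq] at hf
      have key : Subgroup.closure {k | ∃ f ∈ PLc (Fin n → ℝ), LinePres f ∧
          ∃ h ∈ PLc (Fin n → ℝ), k = h * f * h⁻¹} ≤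
          (Subgroup.normalClosure {f : PLGroup n | LinePreserving f}).map
            ((PLc (Fin n → ℝ)).subtype.comp (toPLc n).toMonoidHom) := by
        rw [Subgroup.closure_le]
        rintro k ⟨f, hf, hfl, h, hh, rfl⟩
        refine ⟨⟨h, hh.1, hh.2⟩ * ⟨f, hf.1, hf.2⟩ * ⟨h, hh.1, hh.2⟩⁻¹, ?_, rfl⟩
        have hm : (⟨f, hf.1, hf.2⟩ : PLGroup n) ∈ {f : PLGroup n | LinePreserving f} := hfl
        exact Subgroup.normalClosure_normal.conj_mem _ (Subgroup.subset_normalClosure hm) _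
      obtain ⟨g, hg, hgf⟩ := key hf
      have : g = f := ext_hom hgf
      rw [← this]
      exact hg
    · refine Subgroup.normalClosure_le_normal ?_
      intro f hf
      have hf' : LinePres f.hom := hf
      exact (mem_iff f).mpr (linePres_mem f.mem hf')
  · obtain ⟨S, hS, hSG, h⟩ := countable_cosets n
    have hc : Countable S := hS.to_subtype
    refine Function.Surjective.countable (f := fun s : S =>
      (Abelianization.of (⟨s, (hSG s s.2).1, (hSG s s.2).2⟩ : PLGroup n))) ?_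
    intro x
    obtain ⟨f, rfl⟩ := QuotientGroup.mk_surjective x
    obtain ⟨g, hg, hfg⟩ := h f.hom f.mem
    refine ⟨⟨g, hg⟩, ?_⟩
    have h1 : f * (⟨g, (hSG g hg).1, (hSG g hg).2⟩ : PLGroup n)⁻¹ ∈ commutator (PLGroup n) :=
      (mem_iff _).mpr hfg
    have h2 : Abelianization.of (f * (⟨g, (hSG g hg).1, (hSG g hg).2⟩ : PLGroup n)⁻¹) = 1 := by
      rw [← MonoidHom.mem_ker, Abelianization.ker_of]
      exact h1
    rw [map_mul, map_inv, mul_inv_eq_one] at h2
    exact h2.symm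

end Pool.Agent.Results.MP_27356f_gt.Abelianization
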